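import Pool.Agent.AKU5.Ix
import Mathlib

set_option autoImplicit false

/-!
# Five points: configurations and the function of five points
-/

namespace Pool.Agent.AKU5

open Pool.Agent.AKY

/-- a configuration: `st` is used for increasing arguments, `c4 a b c y` for `a < b < c` and a
further point `y` (the flag of `y` over the root `a b c`) -/
structure Cfg5 (κ : Type) [LinearOrder κ] where
  st : κ → κ → κ → ℕ
  c4 : κ → κ → κ → κ → ℕ

variable {κ : Type} [LinearOrder κ] (G : Cfg5 κ)

/-- the hypotheses on a configuration; `tab` = possible codes of four points -/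
structure Cfg5.Ok (tab : ℕ) : Prop where
  lt : ∀ p q r, p < q → q < r → G.st p q r < 8
  tab : ∀ p q r s, p < q → q < r → r < s →
    tab.testBit (cd (G.st p q r) (G.st p q s) (G.st p r s) (G.st q r s)) = true
  e3 : ∀ p q r s, p < q → q < r → r < s →
    G.c4 p q r s = c3 (G.st p q r) (G.st p q s) (G.st p r s) (G.st q r s)
  e2 : ∀ p q r s, p < q → q < r → r < s →
    G.c4 p q s r = c2 (G.st p q r) (G.st p q s) (G.st p r s) (G.st q r s)
  e1 : ∀ p q r s, p < q → q < r → r < s →
    G.c4 p r s q = c1 (G.st p q r) (G.st p q s) (G.st p r s) (G.st q r s)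
  e0 : ∀ p q r s, p < q → q < r → r < s →
    G.c4 q r s p = c0 (G.st p q r) (G.st p q s) (G.st p r s) (G.st q r s)

/-- non-acute indicator of the triple of `r` and `y < z` -/
def Cfg5.nt (r y z : κ) : ℕ :=
  na (if r < y then G.st r y z else if r < z then G.st y r z else G.st y z r)

/-- the parameters of the rows: weights and multipliers of the flags (12-bit codes), level, degree
multipliers (position in the root, state of the root), margin -/
structure Rw where
  w : ℕ → ℤ
  m : ℕ → ℕ
  th : ℤ
  d : ℕ → ℕ → ℤ
  og : ℕ

variable (R : Rw)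

/-- the rows of a root of state `s` and two further points with flags `f, g` and non-acute
indicators `x, y, z` of the triples with the points of the root -/
def Rw.A (s f g x y z : ℕ) : ℤ :=
  (if s % 4 = 0 then (R.m f : ℤ) * (R.w g - R.th) + (R.m g : ℤ) * (R.w f - R.th) else 0) +
    (R.d 0 s * (4 - 9 * x) + R.d 1 s * (4 - 9 * y) + R.d 2 s * (4 - 9 * z))

/-- the rows of the root `a < b < c` and `y < z` -/
def A (a b c y z : κ) : ℤ :=
  R.A (G.st a b c) (G.c4 a b c y) (G.c4 a b c z) (G.nt a y z) (G.nt b y z) (G.nt c y z)

/-- minus the margin minus the rows at `p < q < r < s < t` -/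
def V5 (p q r s t : κ) : ℤ :=
  -(R.og : ℤ) - (A G R p q r s t + A G R p q s r t + A G R p q t r s + A G R p r s q t +
    A G R p r t q s + A G R p s t q r + A G R q r s p t + A G R q r t p s + A G R q s t p r +
    A G R r s t p q)

end Pool.Agent.AKU5
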