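import Pool.Agent.AKY.Def

set_option autoImplicit false

/-!
# Five points: the kernel check

The points are linearly ordered.  The code of four points `p < q < r < s` is made of the states of
their four triples.  A root is a triple, a flag a root and a further point; its index is its place
among the `58` flags of an acute root or the `60` flags of a root which is not acute (up to the
relabelling of the root and reflection).
-/

namespace Pool.Agent.AKU5

open Pool.Agent.AKY

/-- code of four triples -/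
def cd (a b c d : Nat) : Nat :=
  Nat.add (Nat.mul 8 (Nat.add (Nat.mul 8 (Nat.add (Nat.mul 8 a) b)) c)) d

/-- the last two points are exchanged -/
def sw (t : Nat) : Nat := Nat.mod (Nat.shiftRight 0x23106754 (Nat.mul 4 t)) 16

/-- the first point is moved to the end -/
def ro (t : Nat) : Nat := Nat.mod (Nat.shiftRight 0x65742130 (Nat.mul 4 t)) 16

/-- code with the free point `3, 2, 1, 0` moved to the end -/
def c3 (a b c d : Nat) : Nat := cd a b c d

def c2 (a b c d : Nat) : Nat := cd b a (sw c) (sw d)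

def c1 (a b c d : Nat) : Nat := cd c (sw a) (sw b) (ro d)

def c0 (a b c d : Nat) : Nat := cd d (ro a) (ro b) (ro c)

/-- non-acute indicator -/
def nb (s : Nat) : Nat := Nat.mod (Nat.shiftRight 0xee (s)) 2

/-- four points: the states, non-acute indicators, indices of the four flags, their rows -/
structure En where
  a : Nat
  b : Nat
  c : Nat
  d : Nat
  ka : Nat
  kb : Nat
  kc : Nat
  kd : Nat
  i0 : Nat
  i1 : Nat
  i2 : Nat
  i3 : Nat
  r0 : Nat
  r1 : Nat
  r2 : Nat
  r3 : Nat

/-- a certificate -/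
structure Ce where
  /-- all fours of points, by their first three states -/
  L : List (List (List (List En)))
  /-- columns of the blocks -/
  LA : List Nat
  LN : List Nat
  /-- rows of the tables, their offset -/
  TA : List Nat
  TN : List Nat
  oT : Nat
  /-- multipliers and weights of the flags of an acute root, level -/
  m : Nat
  w : Nat
  th : Nat
  /-- degree multipliers `dq - dO` (digit `3 s + k`), digits `od - 9 d`, table (digit
  `8 (b0 + 2 b1 + 4 b2) + s`), offsets -/
  dq : Nat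
  dO : Nat
  eq : Nat
  od : Nat
  dt : Nat
  ot : Nat
  /-- margin and bound -/
  og : Nat
  cb : Nat

section

variable (C : Ce)

/-- degree table: bits `x, y, z`, state `s` -/
noncomputable def Ce.D (x y z s : Nat) : Nat :=
  lq C.dt (Nat.add (Nat.mul 8 (Nat.add x (Nat.add (Nat.mul 2 y) (Nat.mul 4 z)))) s)

/-- a number for an acute triple and for another triple: roots `s, t, u`, positions `i, j, k` -/
noncomputable def Ce.P (s i t j u k : Nat) : Nat :=
  Nat.add (Nat.mul 3 C.od) (Nat.mul 281474976710656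
    (Nat.add (lq C.eq (Nat.add (Nat.mul 3 s) i))
      (Nat.add (lq C.eq (Nat.add (Nat.mul 3 t) j)) (lq C.eq (Nat.add (Nat.mul 3 u) k)))))

/-- points `0 1 2 3` and `0 1 2 4` -/
noncomputable def a2 (X Y : En) : Nat :=
  Nat.add
    (Nat.add (Nat.add (lq X.r3 Y.i3) (C.D 0 0 0 X.a))
      (Nat.add (C.D Y.kc Y.kd 0 X.b) (C.D X.kc X.kd 0 Y.b)))
    (Nat.add (Nat.add (C.D Y.kb Y.kd 0 X.c) (C.D X.kb X.kd 0 Y.c))
      (Nat.add (C.D Y.kb Y.kc 0 X.d) (C.D X.kb X.kc 0 Y.d)))

/-- points `0 1 3 4` -/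
noncomputable def a3 (X Y Z : En) : Nat :=
  Nat.add
    (Nat.add (a2 C X Y) (Nat.add (lq X.r2 Z.i3) (lq Y.r2 Z.i2)))
    (Nat.add (Nat.add (C.D X.ka X.kd Y.kd Z.c) (lq (C.P X.a 0 X.d 2 Y.d 2) Z.kc))
      (Nat.add (C.D X.ka X.kc Y.kc Z.d) (lq (C.P X.a 1 X.c 2 Y.c 2) Z.kd)))

/-- points `0 2 3 4` -/
noncomputable def a4 (X Y Z W : En) : Nat :=
  Nat.add
    (Nat.add (a3 C X Y Z) (Nat.add (lq X.r1 W.i3) (Nat.add (lq Y.r1 W.i2) (lq Z.r1 W.i1))))
    (Nat.add (C.D X.ka X.kb Y.kb W.d) (lq (C.P X.a 2 X.b 2 Y.b 2) W.kd))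

/-- points `1 2 3 4` -/
noncomputable def a5 (X Y Z W V : En) : Nat :=
  Nat.add (a4 C X Y Z W) (Nat.add (Nat.add (lq X.r0 V.i3) (lq Y.r0 V.i2))
    (Nat.add (lq Z.r0 V.i1) (lq W.r0 V.i0)))

noncomputable def Ce.l3 (a b c : Nat) : List En := nth [] (nth [] (nth [] C.L a) b) c

noncomputable def Ce.l2 (a b : Nat) : List (List En) := nth [] (nth [] C.L a) b

/-- check of the points `0 1 2 3` -/
noncomputable def chkX (X : En) : Bool :=
  allF (nth [] C.L X.a) fun l => allF l fun l => allF l fun Y =>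
    allF (C.l2 X.b Y.b) fun l => allF l fun Z =>
      allF (C.l3 X.c Y.c Z.c) fun W =>
        allF (C.l3 X.d Y.d Z.d) fun V =>
          Bool.rec (motive := fun _ => Bool) true (Nat.ble (a5 C X Y Z W V) C.cb)
            (Nat.beq V.d W.d)

/-- the check for given states of `0 1 2` and `0 1 3` -/
noncomputable def chk (a b : Nat) : Bool :=
  allF (C.l2 a b) fun l => allF l fun X => chkX C X

/-! ### the tables -/

/-- the row of a flag: state of the root, index -/
noncomputable def Ce.row (s i : Nat) : Nat :=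
  Bool.rec (motive := fun _ => Nat) (nth 0 C.TN i) (nth 0 C.TA i) (Nat.beq (nb s) 0)

/-- the index is in its range -/
noncomputable def rng (s i : Nat) : Bool :=
  Bool.rec (motive := fun _ => Bool) (Nat.ble (Nat.succ i) 60) (Nat.ble (Nat.succ i) 58)
    (Nat.beq (nb s) 0)

/-- the entry of a state in a list -/
noncomputable def fnE (l : List En) (d : Nat) : En :=
  List.rec (motive := fun _ => En) ⟨0, 0, 0, 0, 0, 0, 0, 0, 0, 0, 0, 0, 0, 0, 0, 0⟩
    (fun x _ ih => Bool.rec (motive := fun _ => En) ih x (Nat.beq x.d d)) l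

noncomputable def mmE (l : List En) (d : Nat) : Bool :=
  List.rec (motive := fun _ => Bool) false
    (fun x _ ih => Bool.rec (motive := fun _ => Bool) ih true (Nat.beq x.d d)) l

/-- bit of the table of possible codes -/
def bt (tab c : Nat) : Bool := Nat.beq (Nat.land 1 (Nat.shiftRight tab c)) 1

/-- the entry `e` is right for the states `a b c d`; `IX` the indices of the flags -/
noncomputable def okE (IX tab : Nat) (a b c d : Nat) (e : En) : Bool :=
  (bt tab (c2 a b c d) && (bt tab (c1 a b c d) && bt tab (c0 a b c d))) &&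
  ((((Nat.beq e.a a && Nat.beq e.b b) && (Nat.beq e.c c && Nat.beq e.d d)) &&
    ((Nat.beq e.ka (nb a) && Nat.beq e.kb (nb b)) && (Nat.beq e.kc (nb c) && Nat.beq e.kd (nb d)))) &&
  ((((Nat.beq e.i3 (lb IX (c3 a b c d)) && Nat.beq e.i2 (lb IX (c2 a b c d))) &&
      (Nat.beq e.i1 (lb IX (c1 a b c d)) && Nat.beq e.i0 (lb IX (c0 a b c d)))) &&
    ((rng a e.i3 && rng b e.i2) && (rng c e.i1 && rng d e.i0))) &&
   ((Nat.beq e.r3 (C.row a e.i3) && Nat.beq e.r2 (C.row b e.i2)) &&
    (Nat.beq e.r1 (C.row c e.i1) && Nat.beq e.r0 (C.row d e.i0)))))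

/-- all fours of points are there -/
noncomputable def okL5 (IX tab : Nat) : Bool :=
  allN 8 fun a => allN 8 fun b => allN 8 fun c => allN 8 fun d =>
    Bool.rec (motive := fun _ => Bool) true
      (mmE (C.l3 a b c) d && okE C IX tab a b c d (fnE (C.l3 a b c) d))
      (bt tab (cd a b c d))

/-- the table of the flags of an acute root -/
noncomputable def okA : Bool :=
  allN 58 fun i => allN 58 fun j => Nat.beq
    (Nat.add (lq (nth 0 C.TA i) j)
      (Nat.add (Nat.mul OV (Nat.add (lq (ps C.LA) i) (lq (ps C.LA) j)))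
        (Nat.mul C.th (Nat.add (lq C.m i) (lq C.m j)))))
    (Nat.add (lq (rw C.LA i) j) (Nat.add (Nat.add C.oT (Nat.mul (Nat.mul OV OV) (len C.LA)))
      (Nat.add (Nat.mul (lq C.m i) (lq C.w j)) (Nat.mul (lq C.m j) (lq C.w i)))))

/-- the table of the flags of a root which is not acute -/
noncomputable def okN : Bool :=
  allN 60 fun i => allN 60 fun j => Nat.beq
    (Nat.add (lq (nth 0 C.TN i) j)
      (Nat.mul OV (Nat.add (lq (ps C.LN) i) (lq (ps C.LN) j))))
    (Nat.add (lq (rw C.LN i) j) (Nat.add C.oT (Nat.mul (Nat.mul OV OV) (len C.LN))))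

/-- the degree multipliers -/
noncomputable def okD : Bool :=
  ((allN 8 fun s => allN 3 fun k => Nat.beq
      (Nat.add (lq C.eq (Nat.add (Nat.mul 3 s) k)) (Nat.mul 9 (lq C.dq (Nat.add (Nat.mul 3 s) k))))
      (Nat.add C.od (Nat.mul 9 C.dO)) &&
      Nat.ble (lq C.eq (Nat.add (Nat.mul 3 s) k)) 17592186044416) &&
    Nat.ble C.od 17592186044416) &&
  (allN 8 fun s =>
    Nat.ble (Nat.mul 3 C.dO) (Nat.add (lq C.dq (Nat.mul 3 s))
      (Nat.add (lq C.dq (Nat.add (Nat.mul 3 s) 1)) (lq C.dq (Nat.add (Nat.mul 3 s) 2)))) &&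
    allN 2 fun x => allN 2 fun y => allN 2 fun z => Nat.beq
      (Nat.add (C.D x y z s) (Nat.add (Nat.mul 12 C.dO)
        (Nat.mul 9 (Nat.add (Nat.mul x (lq C.dq (Nat.mul 3 s)))
          (Nat.add (Nat.mul y (lq C.dq (Nat.add (Nat.mul 3 s) 1)))
            (Nat.mul z (lq C.dq (Nat.add (Nat.mul 3 s) 2))))))))
      (Nat.add C.ot (Nat.add (Nat.mul 4 (Nat.add (lq C.dq (Nat.mul 3 s))
          (Nat.add (lq C.dq (Nat.add (Nat.mul 3 s) 1)) (lq C.dq (Nat.add (Nat.mul 3 s) 2)))))
        (Nat.mul (Nat.mul 9 C.dO) (Nat.add x (Nat.add y z))))))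

/-- the blocks and the constants -/
noncomputable def okC : Bool :=
  (okL 58 C.LA && okL 60 C.LN) &&
    Nat.beq (Nat.add C.cb C.og) (Nat.add (Nat.mul 10 (Nat.add C.oT C.ot)) (Nat.mul 9 C.od))

noncomputable def ok (IX tab : Nat) : Bool :=
  (okL5 C IX tab && okA C) && (okN C && (okD C && okC C))

end

end Pool.Agent.AKU5
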