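import Pool.Agent.AKU5.Pt
import Pool.Agent.AKC.Bound5

set_option autoImplicit false

/-!
# The conclusion of the engine with five points
-/

namespace Pool.Agent.AKU5

open Finset Pool.Agent.AKY Pool.Agent.AKC

variable {C : Ce} {IX tab : ℕ} {κ : Type} [LinearOrder κ] {G : Cfg5 κ} {R : Rw}

/-- bound of the entries of the blocks -/
def BB : ℝ := 64 * 2 ^ 96

theorem Qc_real {cols : List ℕ} (h : LK cols) (i j : ℕ) : |((Qc cols i j : ℤ) : ℝ)| ≤ BB := by
  have h1 := Qc_abs cols i j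
  have h2 : (cols.length : ℤ) * 2 ^ 96 ≤ 64 * 2 ^ 96 := by
    have := h.n
    have h3 : (cols.length : ℤ) ≤ 64 := by exact_mod_cast this
    nlinarith
  have h4 : |Qc cols i j| ≤ 64 * 2 ^ 96 := h1.trans h2
  have h5 : ((|Qc cols i j| : ℤ) : ℝ) ≤ ((64 * 2 ^ 96 : ℤ) : ℝ) := by exact_mod_cast h4
  rw [Int.cast_abs] at h5
  unfold BB
  refine h5.trans (le_of_eq ?_)
  push_cast
  norm_num

theorem lk_blk (hC : okC C = true) (s : ℕ) : LK (blk C s) := by
  simp only [okC, Bool.and_eq_true] at hC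
  unfold blk
  split_ifs
  · exact okL_iff hC.1.1
  · exact okL_iff hC.1.2

/-- the row of the root `a b c` and `y`, `z`, as a real number -/
noncomputable def Ar (G : Cfg5 κ) (R : Rw) (a b c y z : κ) : ℝ := ((A G R a b c y z : ℤ) : ℝ)

theorem V5_real (p q r s t : κ) :
    ((V5 G R p q r s t : ℤ) : ℝ) = -(R.og : ℝ) - sp5 (Ar G R) p q r s t := by
  unfold V5 sp5 Ar
  push_cast
  ring

/-- **The engine.** -/
theorem engine [Fintype κ] (h : ok C IX tab = true) (hR : Fits C IX tab R) (hG : G.Ok tab)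
    (hm : ∀ a < 8, ∀ b < 8, chk C a b = true) :
    -(7 * BB * (Fintype.card κ : ℝ) ^ 4) ≤
      I5 (fun p q r s t : κ => ((V5 G R p q r s t : ℤ) : ℝ)) := by
  simp only [ok, Bool.and_eq_true] at h
  obtain ⟨⟨hL, hA⟩, hN, hD, hC⟩ := h
  have hB : (0 : ℝ) ≤ BB := by unfold BB; positivity
  set g : κ → κ → κ → κ → κ → ℝ := fun a b c y z => ((PP C IX G a b c y z : ℤ) : ℝ) with hg
  have bg : ∀ a b c y z, |g a b c y z| ≤ BB := fun a b c y z => Qc_real (lk_blk hC _) _ _
  have r1 := S5_ge_of_sym (c := 0) (B := BB) (g := g) bg le_rfl hB (fun a b c _ _ => by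
    have h1 := Qc_psd (blk C (G.st a b c)) fun y => lb IX (G.c4 a b c y)
    have h2 : (0 : ℤ) ≤ ∑ y, ∑ z, PP C IX G a b c y z := h1
    have h3 : (0 : ℝ) ≤ ((∑ y, ∑ z, PP C IX G a b c y z : ℤ) : ℝ) := by exact_mod_cast h2
    push_cast at h3
    have h4 : ∑ y, ∑ z, g a b c y z = ∑ y, ∑ z, ((PP C IX G a b c y z : ℤ) : ℝ) := rfl
    linarith)
  have r2 := I5_sp5_ge (fun a b c y z => g a b c y z + g a b c z y) (2 * BB)
    ((0 + BB * Fintype.card κ) * (Fintype.card κ : ℝ) ^ 3) (fun a b c y z => by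
      have h1 := bg a b c y z
      have h2 := bg a b c z y
      exact (abs_add_le _ _).trans (by linarith)) r1
  have e1 : ∀ a b c y z, g a b c y z + g a b c z y = 2 * g a b c y z := by
    intro a b c y z
    have : PP C IX G a b c z y = PP C IX G a b c y z := Qc_sym _ _ _
    rw [hg]
    dsimp only
    rw [this]
    ring
  have r3 : I5 (sp5 fun a b c y z => g a b c y z + g a b c z y) ≤
      I5 (fun p q r s t : κ => 2 * ((V5 G R p q r s t : ℤ) : ℝ)) := by
    refine S5_le fun p q r s t => ?_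
    split_ifs with hlt
    · have hp := pt hL hA hN hD hC hR hG hm hlt.1 hlt.2.1 hlt.2.2.1 hlt.2.2.2
      have hp' : ((PP C IX G p q r s t + PP C IX G p q s r t + PP C IX G p q t r s +
        PP C IX G p r s q t + PP C IX G p r t q s + PP C IX G p s t q r + PP C IX G q r s p t +
        PP C IX G q r t p s + PP C IX G q s t p r + PP C IX G r s t p q : ℤ) : ℝ) ≤
        ((V5 G R p q r s t : ℤ) : ℝ) := by exact_mod_cast hp
      push_cast at hp'
      unfold sp5
      simp only [e1]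
      rw [hg]
      dsimp only
      linarith
    · exact le_rfl
  have e2 : I5 (fun p q r s t : κ => 2 * ((V5 G R p q r s t : ℤ) : ℝ)) =
      2 * I5 (fun p q r s t : κ => ((V5 G R p q r s t : ℤ) : ℝ)) := by
    unfold I5 S5
    rw [mul_sum]
    refine sum_congr rfl fun i _ => ?_
    rw [mul_sum]
    refine sum_congr rfl fun j _ => ?_
    rw [mul_sum]
    refine sum_congr rfl fun r _ => ?_
    rw [mul_sum]
    refine sum_congr rfl fun t _ => ?_
    rw [mul_sum]
    refine sum_congr rfl fun u _ => ?_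
    dsimp only
    split_ifs <;> simp
  rw [e2] at r3
  have h0 : (0 : ℝ) ≤ BB * (Fintype.card κ : ℝ) ^ 4 := by positivity
  have e3 : (0 + BB * (Fintype.card κ : ℝ)) * (Fintype.card κ : ℝ) ^ 3 =
      BB * (Fintype.card κ : ℝ) ^ 4 := by ring
  rw [e3] at r2
  linarith

end Pool.Agent.AKU5
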