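import Pool.Agent.AKU5.Snd

set_option autoImplicit false

/-!
# The inequality at five points
-/

namespace Pool.Agent.AKU5

open Finset Pool.Agent.AKY

variable {C : Ce} {IX tab : ℕ}

/-- the rows fit the certificate -/
structure Fits (C : Ce) (IX tab : ℕ) (R : Rw) : Prop where
  w : ∀ c, tab.testBit c = true → c / 512 % 4 = 0 → R.w c = lq C.w (lb IX c)
  m : ∀ c, tab.testBit c = true → c / 512 % 4 = 0 → R.m c = lq C.m (lb IX c)
  th : R.th = C.th
  d : ∀ k < 3, ∀ s < 8, R.d k s = dg C k s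
  og : R.og = C.og

theorem nth_mm {α : Type} {l : List (List α)} {i : ℕ} {x : α} (h : x ∈ nth [] l i) :
    nth [] l i ∈ l := by
  rcases nth_mem [] l i with h1 | h1
  · rw [h1] at h
    simp at h
  · exact h1

theorem l2_mem {a b c : ℕ} {e : En} (h : e ∈ C.l3 a b c) : C.l3 a b c ∈ C.l2 a b :=
  nth_mm h

theorem l1_mem {a b : ℕ} {l : List En} (h : l ∈ C.l2 a b) : C.l2 a b ∈ nth [] C.L a :=
  nth_mm h

/-- the check at five points -/
theorem leaf {a b : ℕ} (h : chk C a b = true) {X Y Z W V : En} {c e f g u : ℕ}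
    (hX : X ∈ C.l3 a b c) (hY : Y ∈ C.l3 X.a f g) (hZ : Z ∈ C.l3 X.b Y.b u)
    (hW : W ∈ C.l3 X.c Y.c Z.c) (hV : V ∈ C.l3 X.d Y.d Z.d) (hd : V.d = W.d) (_ : e = e) :
    a5 C X Y Z W V ≤ C.cb := by
  have h1 := allF_iff.1 (allF_iff.1 h _ (l2_mem hX)) _ hX
  have h2 := allF_iff.1 (allF_iff.1 (allF_iff.1 h1 _ (l1_mem (l2_mem hY))) _ (l2_mem hY)) _ hY
  have h3 := allF_iff.1 (allF_iff.1 h2 _ (l2_mem hZ)) _ hZ
  have h4 := allF_iff.1 (allF_iff.1 h3 _ hW) _ hV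
  rw [hd, show Nat.beq W.d W.d = true from Nat.beq_refl _] at h4
  simp only at h4
  rwa [Nat.ble_eq] at h4

variable {κ : Type} [LinearOrder κ] {G : Cfg5 κ} {R : Rw}

/-- the entry of four points -/
noncomputable def en (C : Ce) (G : Cfg5 κ) (p q r s : κ) : En :=
  fnE (C.l3 (G.st p q r) (G.st p q s) (G.st p r s)) (G.st q r s)

theorem ef (h : okL5 C IX tab = true) (hG : G.Ok tab) {p q r s : κ} (hpq : p < q) (hqr : q < r)
    (hrs : r < s) :
    EF C IX tab (G.st p q r) (G.st p q s) (G.st p r s) (G.st q r s) (en C G p q r s) :=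
  ef_of h (hG.lt p q r hpq hqr) (hG.lt p q s hpq (hqr.trans hrs)) (hG.lt p r s (hpq.trans hqr) hrs)
    (hG.lt q r s hqr hrs) (hG.tab p q r s hpq hqr hrs)

/-- the psd part of the root `a b c` and `y`, `z` -/
noncomputable def PP (C : Ce) (IX : ℕ) (G : Cfg5 κ) (a b c y z : κ) : ℤ :=
  Qc (blk C (G.st a b c)) (lb IX (G.c4 a b c y)) (lb IX (G.c4 a b c z))

/-- the weight part -/
def WP (R : Rw) (s f g : ℕ) : ℤ :=
  if s % 4 = 0 then (R.m f : ℤ) * (R.w g - R.th) + (R.m g : ℤ) * (R.w f - R.th) else 0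

theorem cd_div : ∀ a < 8, ∀ b < 8, ∀ c < 8, ∀ d < 8, cd a b c d / 512 = a ∧
    c2 a b c d / 512 = b ∧ c1 a b c d / 512 = c ∧ c0 a b c d / 512 = d := by
  decide +kernel

/-- the value of a table at two flags -/
theorem tv_eq (hA : okA C = true) (hN : okN C = true) (hC : okC C = true)
    (hR : Fits C IX tab R) {s f g : ℕ} (hs : s < 8) (hi : rng s (lb IX f) = true)
    (hj : rng s (lb IX g) = true) (hf : tab.testBit f = true) (hg : tab.testBit g = true)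
    (ef : f / 512 = s) (eg : g / 512 = s) :
    (lq (C.row s (lb IX f)) (lb IX g) : ℤ) = C.oT + Qc (blk C s) (lb IX f) (lb IX g) +
      WP R s f g := by
  rw [row_eq hA hN hC hs hi hj]
  unfold WP
  split_ifs with h4
  · rw [hR.m f hf (by rw [ef]; exact h4), hR.m g hg (by rw [eg]; exact h4),
      hR.w f hf (by rw [ef]; exact h4), hR.w g hg (by rw [eg]; exact h4), hR.th]
  · rfl

/-- the facts about four points of a configuration -/
structure F4 (C : Ce) (IX tab : ℕ) (G : Cfg5 κ) (p q r s : κ) : Prop where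
  mem : en C G p q r s ∈ C.l3 (G.st p q r) (G.st p q s) (G.st p r s)
  ea : (en C G p q r s).a = G.st p q r
  eb : (en C G p q r s).b = G.st p q s
  ec : (en C G p q r s).c = G.st p r s
  ed : (en C G p q r s).d = G.st q r s
  ka : (en C G p q r s).ka = na (G.st p q r)
  kb : (en C G p q r s).kb = na (G.st p q s)
  kc : (en C G p q r s).kc = na (G.st p r s)
  kd : (en C G p q r s).kd = na (G.st q r s)
  i3 : (en C G p q r s).i3 = lb IX (G.c4 p q r s)
  i2 : (en C G p q r s).i2 = lb IX (G.c4 p q s r)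
  i1 : (en C G p q r s).i1 = lb IX (G.c4 p r s q)
  i0 : (en C G p q r s).i0 = lb IX (G.c4 q r s p)
  r3 : (en C G p q r s).r3 = C.row (G.st p q r) (lb IX (G.c4 p q r s))
  r2 : (en C G p q r s).r2 = C.row (G.st p q s) (lb IX (G.c4 p q s r))
  r1 : (en C G p q r s).r1 = C.row (G.st p r s) (lb IX (G.c4 p r s q))
  r0 : (en C G p q r s).r0 = C.row (G.st q r s) (lb IX (G.c4 q r s p))
  g3 : rng (G.st p q r) (lb IX (G.c4 p q r s)) = true
  g2 : rng (G.st p q s) (lb IX (G.c4 p q s r)) = true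
  g1 : rng (G.st p r s) (lb IX (G.c4 p r s q)) = true
  g0 : rng (G.st q r s) (lb IX (G.c4 q r s p)) = true
  t3 : tab.testBit (G.c4 p q r s) = true
  t2 : tab.testBit (G.c4 p q s r) = true
  t1 : tab.testBit (G.c4 p r s q) = true
  t0 : tab.testBit (G.c4 q r s p) = true
  d3 : G.c4 p q r s / 512 = G.st p q r
  d2 : G.c4 p q s r / 512 = G.st p q s
  d1 : G.c4 p r s q / 512 = G.st p r s
  d0 : G.c4 q r s p / 512 = G.st q r s

theorem f4 (h : okL5 C IX tab = true) (hG : G.Ok tab) {p q r s : κ} (hpq : p < q) (hqr : q < r)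
    (hrs : r < s) : F4 C IX tab G p q r s := by
  have e := ef h hG hpq hqr hrs
  have c := cd_div _ (hG.lt p q r hpq hqr) _ (hG.lt p q s hpq (hqr.trans hrs)) _
    (hG.lt p r s (hpq.trans hqr) hrs) _ (hG.lt q r s hqr hrs)
  have i3 := e.i3
  have i2 := e.i2
  have i1 := e.i1
  have i0 := e.i0
  have r3 := e.r3
  have r2 := e.r2
  have r1 := e.r1
  have r0 := e.r0
  have g3 := e.g3
  have g2 := e.g2
  have g1 := e.g1
  have g0 := e.g0
  rw [i3] at r3 g3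
  rw [i2] at r2 g2
  rw [i1] at r1 g1
  rw [i0] at r0 g0
  have t3 := e.t3
  have t2 := e.t2
  have t1 := e.t1
  have t0 := e.t0
  have c3' : c3 (G.st p q r) (G.st p q s) (G.st p r s) (G.st q r s) / 512 = G.st p q r := c.1
  obtain ⟨_, d2, d1, d0⟩ := c
  rw [← hG.e3 p q r s hpq hqr hrs] at i3 r3 g3 t3 c3'
  rw [← hG.e2 p q r s hpq hqr hrs] at i2 r2 g2 t2 d2
  rw [← hG.e1 p q r s hpq hqr hrs] at i1 r1 g1 t1 d1
  rw [← hG.e0 p q r s hpq hqr hrs] at i0 r0 g0 t0 d0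
  exact ⟨e.mem, e.ea, e.eb, e.ec, e.ed, e.ka, e.kb, e.kc, e.kd, i3, i2, i1, i0, r3, r2, r1, r0, g3,
    g2, g1, g0, t3, t2, t1, t0, c3', d2, d1, d0⟩

theorem nt_lo {r y z : κ} (h : r < y) : G.nt r y z = na (G.st r y z) := by
  unfold Cfg5.nt
  rw [if_pos h]

theorem nt_mi {r y z : κ} (h : y < r) (h' : r < z) : G.nt r y z = na (G.st y r z) := by
  unfold Cfg5.nt
  rw [if_neg (not_lt_of_gt h), if_pos h']

theorem nt_hi {r y z : κ} (h : y < z) (h' : z < r) : G.nt r y z = na (G.st y z r) := by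
  unfold Cfg5.nt
  rw [if_neg (not_lt_of_gt (h.trans h')), if_neg (not_lt_of_gt h')]

theorem A_eq (hR : Fits C IX tab R) {a b c y z : κ} (hs : G.st a b c < 8) :
    A G R a b c y z = WP R (G.st a b c) (G.c4 a b c y) (G.c4 a b c z) +
      (4 * (dg C 0 (G.st a b c) + dg C 1 (G.st a b c) + dg C 2 (G.st a b c)) -
        9 * (G.nt a y z * dg C 0 (G.st a b c) + G.nt b y z * dg C 1 (G.st a b c) +
          G.nt c y z * dg C 2 (G.st a b c))) := by
  unfold A Rw.A WP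
  rw [hR.d 0 (by norm_num) _ hs, hR.d 1 (by norm_num) _ hs, hR.d 2 (by norm_num) _ hs]
  ring

theorem pt (hL : okL5 C IX tab = true) (hA : okA C = true) (hN : okN C = true)
    (hD : okD C = true) (hC : okC C = true) (hR : Fits C IX tab R) (hG : G.Ok tab)
    (hm : ∀ a < 8, ∀ b < 8, chk C a b = true) {p q r s t : κ} (hpq : p < q) (hqr : q < r)
    (hrs : r < s) (hst : s < t) :
    PP C IX G p q r s t + PP C IX G p q s r t + PP C IX G p q t r s + PP C IX G p r s q t +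
      PP C IX G p r t q s + PP C IX G p s t q r + PP C IX G q r s p t + PP C IX G q r t p s +
      PP C IX G q s t p r + PP C IX G r s t p q ≤ V5 G R p q r s t := by
  have hpr := hpq.trans hqr
  have hps := hpr.trans hrs
  have hpt := hps.trans hst
  have hqs := hqr.trans hrs
  have hqt := hqs.trans hst
  have hrt := hrs.trans hst
  have X := f4 hL hG hpq hqr hrs
  have Y := f4 hL hG hpq hqr hrt
  have Z := f4 hL hG hpq hqs hst
  have W := f4 hL hG hpr hrs hst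
  have V := f4 hL hG hqr hrs hst
  have l012 := hG.lt p q r hpq hqr
  have l013 := hG.lt p q s hpq hqs
  have l014 := hG.lt p q t hpq hqt
  have l023 := hG.lt p r s hpr hrs
  have l024 := hG.lt p r t hpr hrt
  have l034 := hG.lt p s t hps hst
  have l123 := hG.lt q r s hqr hrs
  have l124 := hG.lt q r t hqr hrt
  have l134 := hG.lt q s t hqs hst
  have l234 := hG.lt r s t hrs hst
  have F := df_of hD
  have h := leaf (hm _ l012 _ l013) X.mem (by rw [X.ea]; exact Y.mem)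
    (by rw [X.eb, Y.eb]; exact Z.mem) (by rw [X.ec, Y.ec, Z.ec]; exact W.mem)
    (by rw [X.ed, Y.ed, Z.ed]; exact V.mem) (by rw [V.ed, W.ed]) (rfl : (0 : ℕ) = 0)
  unfold a5 a4 a3 a2 at h
  simp only [nadd] at h
  rw [X.r3, Y.i3, X.r2, Z.i3, Y.r2, Z.i2, X.r1, W.i3, Y.r1, W.i2, Z.r1, W.i1, X.r0, V.i3, Y.r0,
    V.i2, Z.r0, V.i1, W.r0, V.i0, X.ea, X.eb, X.ec, X.ed, Y.eb, Y.ec, Y.ed, Z.ec, Z.ed, W.ed,
    X.ka, X.kb, X.kc, X.kd, Y.kb, Y.kc, Y.kd, Z.kc, Z.kd, W.kd] at h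
  have h1 := (Nat.cast_le (α := ℤ)).2 h
  push_cast at h1
  have T1 := tv_eq hA hN hC hR l012 X.g3 Y.g3 X.t3 Y.t3 X.d3 Y.d3
  have T2 := tv_eq hA hN hC hR l013 X.g2 Z.g3 X.t2 Z.t3 X.d2 Z.d3
  have T3 := tv_eq hA hN hC hR l014 Y.g2 Z.g2 Y.t2 Z.t2 Y.d2 Z.d2
  have T4 := tv_eq hA hN hC hR l023 X.g1 W.g3 X.t1 W.t3 X.d1 W.d3
  have T5 := tv_eq hA hN hC hR l024 Y.g1 W.g2 Y.t1 W.t2 Y.d1 W.d2
  have T6 := tv_eq hA hN hC hR l034 Z.g1 W.g1 Z.t1 W.t1 Z.d1 W.d1
  have T7 := tv_eq hA hN hC hR l123 X.g0 V.g3 X.t0 V.t3 X.d0 V.d3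
  have T8 := tv_eq hA hN hC hR l124 Y.g0 V.g2 Y.t0 V.t2 Y.d0 V.d2
  have T9 := tv_eq hA hN hC hR l134 Z.g0 V.g1 Z.t0 V.t1 Z.d0 V.d1
  have T10 := tv_eq hA hN hC hR l234 W.g0 V.g0 W.t0 V.t0 W.d0 V.d0
  rw [T1, T2, T3, T4, T5, T6, T7, T8, T9, T10] at h1
  rw [F.D _ l012 0 (by norm_num) 0 (by norm_num) 0 (by norm_num),
    F.D _ l013 _ (na_lt _) _ (na_lt _) 0 (by norm_num),
    F.D _ l014 _ (na_lt _) _ (na_lt _) 0 (by norm_num),
    F.D _ l023 _ (na_lt _) _ (na_lt _) 0 (by norm_num),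
    F.D _ l024 _ (na_lt _) _ (na_lt _) 0 (by norm_num),
    F.D _ l123 _ (na_lt _) _ (na_lt _) 0 (by norm_num),
    F.D _ l124 _ (na_lt _) _ (na_lt _) 0 (by norm_num),
    F.D _ l034 _ (na_lt _) _ (na_lt _) _ (na_lt _),
    F.D _ l134 _ (na_lt _) _ (na_lt _) _ (na_lt _),
    F.D _ l234 _ (na_lt _) _ (na_lt _) _ (na_lt _),
    P_eq F l012 l123 l124 (by norm_num) (by norm_num) (by norm_num) (na_lt _),
    P_eq F l012 l023 l024 (by norm_num) (by norm_num) (by norm_num) (na_lt _),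
    P_eq F l012 l013 l014 (by norm_num) (by norm_num) (by norm_num) (na_lt _)] at h1
  simp only [Nat.cast_zero, zero_mul, zero_add, add_zero] at h1
  have hcb : (C.cb : ℤ) + C.og = 10 * (C.oT + C.ot) + 9 * C.od := by
    simp only [okC, Bool.and_eq_true] at hC
    exact_mod_cast Nat.eq_of_beq_eq_true hC.2
  unfold V5
  rw [A_eq hR l012, A_eq hR l013, A_eq hR l014, A_eq hR l023, A_eq hR l024, A_eq hR l034,
    A_eq hR l123, A_eq hR l124, A_eq hR l134, A_eq hR l234, hR.og]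
  rw [nt_lo (z := t) hps, nt_lo (z := t) hqs, nt_lo (z := t) hrs,
    nt_lo (z := t) hpr, nt_lo (z := t) hqr, nt_mi hrs hst,
    nt_lo (z := s) hpr, nt_lo (z := s) hqr, nt_hi hrs hst,
    nt_lo (z := t) hpq, nt_mi hqr hrt, nt_mi hqs hst,
    nt_lo (z := s) hpq, nt_mi hqr hrs, nt_hi hqs hst,
    nt_lo (z := r) hpq, nt_hi hqr hrs, nt_hi hqr hrt,
    nt_mi hpq hqt, nt_mi hpr hrt, nt_mi hps hst,
    nt_mi hpq hqs, nt_mi hpr hrs, nt_hi hps hst,
    nt_mi hpq hqr, nt_hi hpr hrs, nt_hi hpr hrt,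
    nt_hi hpq hqr, nt_hi hpq hqs, nt_hi hpq hqt]
  unfold PP
  linarith

end Pool.Agent.AKU5
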