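import Pool.Agent.AKU5.Ct
import Pool.Agent.AKY.Snd

set_option autoImplicit false

/-!
# The tables
-/

namespace Pool.Agent.AKU5

open Finset Pool.Agent.AKY

variable {C : Ce} {IX tab : ℕ}

/-- the block of a root of state `s` -/
def blk (C : Ce) (s : ℕ) : List ℕ := if s % 4 = 0 then C.LA else C.LN

/-- the degree multipliers -/
def dg (C : Ce) (k s : ℕ) : ℤ := (lq C.dq (3 * s + k) : ℤ) - C.dO

theorem nb_iff' (s : ℕ) (h : s < 8) : nb s = na s := by
  interval_cases s <;> rfl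

theorem nb0 (s : ℕ) (h : s < 8) : Nat.beq (nb s) 0 = decide (s % 4 = 0) := by
  interval_cases s <;> rfl

theorem na_lt (s : ℕ) : na s < 2 := by
  unfold na
  split_ifs <;> norm_num

theorem fnE_mem {l : List En} {d : ℕ} (h : mmE l d = true) : fnE l d ∈ l := by
  induction l with
  | nil => simp [mmE] at h
  | cons x l ih =>
    have e : mmE (x :: l) d =
        Bool.rec (motive := fun _ => Bool) (mmE l d) true (Nat.beq x.d d) := rfl
    have e2 : fnE (x :: l) d =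
        Bool.rec (motive := fun _ => En) (fnE l d) x (Nat.beq x.d d) := rfl
    rw [e] at h
    rw [e2]
    cases hb : Nat.beq x.d d
    · rw [hb] at h
      exact List.mem_cons_of_mem _ (ih h)
    · exact List.mem_cons_self

theorem bt_iff (tab c : ℕ) : bt tab c = tab.testBit c := by
  unfold bt
  have e : Nat.land 1 (Nat.shiftRight tab c) = 1 &&& (tab >>> c) := rfl
  rw [e, Nat.one_and_eq_mod_two, Nat.testBit_eq_decide_div_mod_eq, Nat.shiftRight_eq_div_pow]
  rcases Nat.mod_two_eq_zero_or_one (tab / 2 ^ c) with h | h <;> rw [h] <;> rfl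

/-- the facts about the entry of four points -/
structure EF (C : Ce) (IX tab : ℕ) (a b c d : ℕ) (e : En) : Prop where
  mem : e ∈ C.l3 a b c
  ea : e.a = a
  eb : e.b = b
  ec : e.c = c
  ed : e.d = d
  ka : e.ka = na a
  kb : e.kb = na b
  kc : e.kc = na c
  kd : e.kd = na d
  i3 : e.i3 = lb IX (c3 a b c d)
  i2 : e.i2 = lb IX (c2 a b c d)
  i1 : e.i1 = lb IX (c1 a b c d)
  i0 : e.i0 = lb IX (c0 a b c d)
  g3 : rng a e.i3 = true
  g2 : rng b e.i2 = true
  g1 : rng c e.i1 = true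
  g0 : rng d e.i0 = true
  r3 : e.r3 = C.row a e.i3
  r2 : e.r2 = C.row b e.i2
  r1 : e.r1 = C.row c e.i1
  r0 : e.r0 = C.row d e.i0
  t3 : tab.testBit (c3 a b c d) = true
  t2 : tab.testBit (c2 a b c d) = true
  t1 : tab.testBit (c1 a b c d) = true
  t0 : tab.testBit (c0 a b c d) = true

theorem ef_of (h : okL5 C IX tab = true) {a b c d : ℕ} (ha : a < 8) (hb : b < 8) (hc : c < 8)
    (hd : d < 8) (ht : tab.testBit (cd a b c d) = true) :
    EF C IX tab a b c d (fnE (C.l3 a b c) d) := by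
  have h1 := allN_iff.1 (allN_iff.1 (allN_iff.1 (allN_iff.1 h a ha) b hb) c hc) d hd
  rw [bt_iff, ht] at h1
  simp only [Bool.and_eq_true] at h1
  obtain ⟨h2, h3⟩ := h1
  simp only [okE, Bool.and_eq_true, Nat.beq_eq, bt_iff] at h3
  obtain ⟨⟨t2, t1, t0⟩, ⟨⟨⟨e1, e2⟩, e3, e4⟩, ⟨k1, k2⟩, k3, k4⟩, ⟨⟨⟨i3, i2⟩, i1, i0⟩, ⟨g3, g2⟩,
    g1, g0⟩, ⟨r3, r2⟩, r1, r0⟩ := h3
  exact ⟨fnE_mem h2, e1, e2, e3, e4, by rw [k1, nb_iff' _ ha], by rw [k2, nb_iff' _ hb],
    by rw [k3, nb_iff' _ hc], by rw [k4, nb_iff' _ hd], i3, i2, i1, i0, g3, g2, g1, g0, r3, r2, r1,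
    r0, ht, t2, t1, t0⟩

/-- the value of a table -/
theorem row_eq (hA : okA C = true) (hN : okN C = true) (hC : okC C = true) {s i j : ℕ}
    (hs : s < 8) (hi : rng s i = true) (hj : rng s j = true) :
    (lq (C.row s i) j : ℤ) = C.oT + Qc (blk C s) i j +
      (if s % 4 = 0 then (lq C.m i : ℤ) * (lq C.w j - C.th) + lq C.m j * (lq C.w i - C.th)
        else 0) := by
  simp only [okC, Bool.and_eq_true] at hC
  obtain ⟨⟨hLA, hLN⟩, _⟩ := hC
  have lA := okL_iff hLA
  have lN := okL_iff hLN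
  by_cases h4 : s % 4 = 0
  · have e1 : Nat.beq (nb s) 0 = true := by rw [nb0 s hs]; exact decide_eq_true h4
    unfold rng at hi hj
    rw [e1] at hi hj
    simp only [Nat.ble_eq] at hi hj
    have e2 : C.row s i = nth 0 C.TA i := by unfold Ce.row; rw [e1]
    have h := allN_iff.1 (allN_iff.1 hA i (by omega)) j (by omega)
    have h5 := congrArg (Nat.cast : ℕ → ℤ) (Nat.eq_of_beq_eq_true h)
    simp only [nadd, nmul] at h5
    push_cast at h5
    rw [Qc_eq lA] at h5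
    rw [e2, if_pos h4]
    unfold blk
    rw [if_pos h4]
    linarith
  · have e1 : Nat.beq (nb s) 0 = false := by rw [nb0 s hs]; exact decide_eq_false h4
    unfold rng at hi hj
    rw [e1] at hi hj
    simp only [Nat.ble_eq] at hi hj
    have e2 : C.row s i = nth 0 C.TN i := by unfold Ce.row; rw [e1]
    have h := allN_iff.1 (allN_iff.1 hN i (by omega)) j (by omega)
    have h5 := congrArg (Nat.cast : ℕ → ℤ) (Nat.eq_of_beq_eq_true h)
    simp only [nadd, nmul] at h5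
    push_cast at h5
    rw [Qc_eq lN] at h5
    rw [e2, if_neg h4]
    unfold blk
    rw [if_neg h4]
    linarith

/-- the facts about the degree multipliers -/
structure DF (C : Ce) : Prop where
  e : ∀ s < 8, ∀ k < 3, (lq C.eq (3 * s + k) : ℤ) = C.od - 9 * dg C k s
  b : ∀ s < 8, ∀ k < 3, lq C.eq (3 * s + k) ≤ 2 ^ 44
  o : C.od ≤ 2 ^ 44
  n : ∀ s < 8, 0 ≤ dg C 0 s + dg C 1 s + dg C 2 s
  D : ∀ s < 8, ∀ x < 2, ∀ y < 2, ∀ z < 2, (C.D x y z s : ℤ) = C.ot +
    4 * (dg C 0 s + dg C 1 s + dg C 2 s) - 9 * (x * dg C 0 s + y * dg C 1 s + z * dg C 2 s)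

theorem df_of (h : okD C = true) : DF C := by
  simp only [okD, Bool.and_eq_true] at h
  obtain ⟨⟨h1, h2⟩, h3⟩ := h
  have k1 : ∀ s < 8, ∀ k < 3, lq C.eq (3 * s + k) + 9 * lq C.dq (3 * s + k) = C.od + 9 * C.dO ∧
      lq C.eq (3 * s + k) ≤ 2 ^ 44 := by
    intro s hs k hk
    have := allN_iff.1 (allN_iff.1 h1 s hs) k hk
    rw [Bool.and_eq_true, Nat.ble_eq] at this
    exact ⟨Nat.eq_of_beq_eq_true this.1, this.2⟩
  have k3 : ∀ s < 8, 3 * C.dO ≤ lq C.dq (3 * s) + (lq C.dq (3 * s + 1) + lq C.dq (3 * s + 2)) ∧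
      ∀ x < 2, ∀ y < 2, ∀ z < 2, C.D x y z s + (12 * C.dO +
        9 * (x * lq C.dq (3 * s) + (y * lq C.dq (3 * s + 1) + z * lq C.dq (3 * s + 2)))) =
        C.ot + (4 * (lq C.dq (3 * s) + (lq C.dq (3 * s + 1) + lq C.dq (3 * s + 2))) +
          9 * C.dO * (x + (y + z))) := by
    intro s hs
    have := allN_iff.1 h3 s hs
    rw [Bool.and_eq_true, Nat.ble_eq] at this
    refine ⟨this.1, fun x hx y hy z hz => ?_⟩
    exact Nat.eq_of_beq_eq_true (allN_iff.1 (allN_iff.1 (allN_iff.1 this.2 x hx) y hy) z hz)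
  rw [Nat.ble_eq] at h2
  refine ⟨fun s hs k hk => ?_, fun s hs k hk => (k1 s hs k hk).2, h2, fun s hs => ?_,
    fun s hs x hx y hy z hz => ?_⟩
  · have := congrArg (Nat.cast : ℕ → ℤ) (k1 s hs k hk).1
    push_cast at this
    unfold dg
    linarith
  · have h5 := (k3 s hs).1
    have h6 : (3 * C.dO : ℤ) ≤
        lq C.dq (3 * s) + (lq C.dq (3 * s + 1) + lq C.dq (3 * s + 2)) := by exact_mod_cast h5
    unfold dg
    rw [add_zero]
    linarith
  · have := congrArg (Nat.cast : ℕ → ℤ) ((k3 s hs).2 x hx y hy z hz)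
    push_cast at this
    unfold dg
    rw [add_zero]
    linarith

theorem P_eq (h : DF C) {s t u i j k b : ℕ} (hs : s < 8) (ht : t < 8) (hu : u < 8) (hi : i < 3)
    (hj : j < 3) (hk : k < 3) (hb : b < 2) :
    (lq (C.P s i t j u k) b : ℤ) = 3 * C.od - 9 * (b * (dg C i s + dg C j t + dg C k u)) := by
  have e1 := h.e s hs i hi
  have e2 := h.e t ht j hj
  have e3 := h.e u hu k hk
  have b1 := h.b s hs i hi
  have b2 := h.b t ht j hj
  have b3 := h.b u hu k hk
  have ho := h.o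
  have hP : C.P s i t j u k = 2 ^ (48 * 1) * (lq C.eq (3 * s + i) +
      (lq C.eq (3 * t + j) + lq C.eq (3 * u + k))) + 3 * C.od := by
    unfold Ce.P
    simp only [nadd, nmul]
    norm_num
    ring
  rw [hP, lq_app _ (by omega)]
  rcases (by omega : b = 0 ∨ b = 1) with rfl | rfl
  · rw [if_pos (by norm_num), lq_eq]
    rw [show 48 * 0 = 0 by norm_num, Nat.shiftRight_zero, Nat.mod_eq_of_lt (by omega)]
    push_cast
    ring
  · rw [if_neg (by norm_num), show 1 - 1 = 0 by norm_num, lq_eq,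
      show 48 * 0 = 0 by norm_num, Nat.shiftRight_zero, Nat.mod_eq_of_lt (by omega)]
    push_cast
    rw [e1, e2, e3]
    ring

end Pool.Agent.AKU5
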