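import Pool.Agent.AKU5.Fin
import Pool.Agent.AKY.Tab

set_option autoImplicit false

/-!
# The rows of a certificate
-/

namespace Pool.Agent.AKU5

open Pool.Agent.AKY

/-- the rows of a certificate with the weights `w` -/
def rows (C : Ce) (IX : ℕ) (w : ℕ → ℤ) : Rw where
  w := w
  m c := lq C.m (lb IX c)
  th := C.th
  d k s := dg C k s
  og := C.og

theorem TAB_bit {c : ℕ} (h : TAB.testBit c = true) : c < 4096 := by
  by_contra hc
  have h1 : TAB < 2 ^ 4096 := by decide +kernel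
  have h2 : TAB < 2 ^ c := lt_of_lt_of_le h1 (Nat.pow_le_pow_right (by norm_num) (by omega))
  rw [Nat.testBit_lt_two_pow h2] at h
  exact absurd h (by simp)

theorem fits {C : Ce} {IX : ℕ} {w : ℕ → ℤ}
    (h : ∀ c < 4096, TAB.testBit c = true → c / 512 % 4 = 0 → w c = lq C.w (lb IX c)) :
    Fits C IX TAB (rows C IX w) :=
  ⟨fun c hc h4 => h c (TAB_bit hc) hc h4, fun _ _ _ => rfl, rfl, fun _ _ _ _ => rfl, rfl⟩

theorem d_nonneg {C : Ce} {IX tab : ℕ} {w : ℕ → ℤ} (h : ok C IX tab = true) :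
    ∀ s < 8, 0 ≤ (rows C IX w).d 0 s + (rows C IX w).d 1 s + (rows C IX w).d 2 s := by
  simp only [ok, Bool.and_eq_true] at h
  exact (df_of h.2.2.1).n

end Pool.Agent.AKU5
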